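import Mathlib
import Pool.Agent.H34.L.TH161.KS.Defs

/-! Project KS, step LC: log-concavity of the law of `f x - f y` for a random order preserving map. -/

set_option autoImplicit false

open Finset Filter Topology
open scoped Classical FinsetFamily

namespace Pool.Agent.TH263.KS_LC

open Pool.Agent.TH161.LW Pool.Agent.TH161.KS

/-- the normalised map: the values minus the value at `y`, and minus the value at `y` -/
def FF {α : Type} (y : α) (f : α → ℕ) : Option α → ℤ
  | none => -(f y : ℤ)
  | some z => (f z : ℤ) - f y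

lemma FF_inj {α : Type} (y : α) : Function.Injective (FF y) := by
  intro f g h
  have h0 : -(f y : ℤ) = -(g y : ℤ) := congrFun h none
  funext z
  have h1 : (f z : ℤ) - f y = (g z : ℤ) - g y := congrFun h (some z)
  omega

/-- recovering a map from a function on `Option α` -/
lemma exists_of {α : Type} [Fintype α] [PartialOrder α] (M : ℕ) (y : α) (H : Option α → ℤ)
    (hy : H (some y) = 0) (h0 : ∀ z, 0 ≤ H (some z) - H none) (h1 : ∀ z, H (some z) - H none < M)
    (hm : ∀ z w, z ≤ w → H (some z) ≤ H (some w)) :
    ∃ h ∈ Om α M, FF y h = H := by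
  refine ⟨fun z => (H (some z) - H none).toNat, ?_, ?_⟩
  · rw [mem_Om]
    refine ⟨fun z => ?_, fun z w hzw => ?_⟩
    · have := h0 z
      have := h1 z
      show (H (some z) - H none).toNat < M
      omega
    · have := hm z w hzw
      show (H (some z) - H none).toNat ≤ (H (some w) - H none).toNat
      omega
  · funext o
    have hy0 := h0 y
    cases o with
    | none =>
      show -(((H (some y) - H none).toNat : ℕ) : ℤ) = H none
      rw [hy] at hy0 ⊢
      omega
    | some z =>
      have hz0 := h0 z
      show (((H (some z) - H none).toNat : ℕ) : ℤ) - ((H (some y) - H none).toNat : ℕ) = H (some z)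
      rw [hy] at hy0 ⊢
      omega

theorem t_LC : P_LC := by
  intro α _ _ M x y k l j hj hjl
  set s : ℤ := l - k - j with hs
  have hs0 : 0 ≤ s := by omega
  set A := (Om α M).filter fun f => (f x : ℤ) - f y = k with hA
  set B := (Om α M).filter fun f => (f x : ℤ) - f y = l with hB
  set C := (Om α M).filter fun f => (f x : ℤ) - f y = k + j with hC
  set D := (Om α M).filter fun f => (f x : ℤ) - f y = l - j with hD
  have i1 : Function.Injective fun f : α → ℕ => FF y f + fun _ => s := by
    intro f g h
    apply FF_inj y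
    exact add_right_cancel h
  set S := A.image fun f => FF y f + fun _ => s with hS
  set T := B.image (FF y) with hT
  have cS : S.card = A.card := Finset.card_image_of_injective _ i1
  have cT : T.card = B.card := Finset.card_image_of_injective _ (FF_inj y)
  have hinf : (S ⊼ T).card ≤ D.card := by
    rw [← Finset.card_image_of_injective D (FF_inj y)]
    apply Finset.card_le_card
    intro H hH
    rw [Finset.mem_infs] at hH
    obtain ⟨a, ha, b, hb, rfl⟩ := hH
    rw [hS, Finset.mem_image] at ha
    rw [hT, Finset.mem_image] at hb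
    obtain ⟨f, hf, rfl⟩ := ha
    obtain ⟨g, hg, rfl⟩ := hb
    rw [hA, Finset.mem_filter, mem_Om] at hf
    rw [hB, Finset.mem_filter, mem_Om] at hg
    obtain ⟨⟨hf1, hf2⟩, hf3⟩ := hf
    obtain ⟨⟨hg1, hg2⟩, hg3⟩ := hg
    have en : ((FF y f + fun _ => s) ⊓ FF y g) none = min (-(f y : ℤ) + s) (-(g y : ℤ)) := rfl
    have ez : ∀ z, ((FF y f + fun _ => s) ⊓ FF y g) (some z) =
      min ((f z : ℤ) - f y + s) ((g z : ℤ) - g y) := fun z => rfl
    obtain ⟨h, hh, he⟩ := exists_of M y ((FF y f + fun _ => s) ⊓ FF y g)
      (by rw [ez]; omega) (fun z => by rw [ez, en]; omega)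
      (fun z => by rw [ez, en]; have := hf1 z; have := hg1 z; omega)
      (fun z w hzw => by rw [ez, ez]; have := hf2 hzw; have := hg2 hzw; omega)
    rw [Finset.mem_image]
    refine ⟨h, ?_, he⟩
    rw [hD, Finset.mem_filter]
    refine ⟨hh, ?_⟩
    have e1 : (h x : ℤ) - h y = FF y h (some x) := rfl
    rw [e1, he, ez]
    omega
  have hsup : (S ⊻ T).card ≤ C.card := by
    rw [← Finset.card_image_of_injective C i1]
    apply Finset.card_le_card
    intro H hH
    rw [Finset.mem_sups] at hH
    obtain ⟨a, ha, b, hb, rfl⟩ := hH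
    rw [hS, Finset.mem_image] at ha
    rw [hT, Finset.mem_image] at hb
    obtain ⟨f, hf, rfl⟩ := ha
    obtain ⟨g, hg, rfl⟩ := hb
    rw [hA, Finset.mem_filter, mem_Om] at hf
    rw [hB, Finset.mem_filter, mem_Om] at hg
    obtain ⟨⟨hf1, hf2⟩, hf3⟩ := hf
    obtain ⟨⟨hg1, hg2⟩, hg3⟩ := hg
    set H' : Option α → ℤ := fun o => ((FF y f + fun _ => s) ⊔ FF y g) o - s with hH'
    have en : H' none = max (-(f y : ℤ) + s) (-(g y : ℤ)) - s := rfl
    have ez : ∀ z, H' (some z) = max ((f z : ℤ) - f y + s) ((g z : ℤ) - g y) - s := fun z => rfl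
    obtain ⟨h, hh, he⟩ := exists_of M y H'
      (by rw [ez]; omega) (fun z => by rw [ez, en]; omega)
      (fun z => by rw [ez, en]; have := hf1 z; have := hg1 z; omega)
      (fun z w hzw => by rw [ez, ez]; have := hf2 hzw; have := hg2 hzw; omega)
    rw [Finset.mem_image]
    refine ⟨h, ?_, ?_⟩
    · rw [hC, Finset.mem_filter]
      refine ⟨hh, ?_⟩
      have e1 : (h x : ℤ) - h y = FF y h (some x) := rfl
      rw [e1, he, ez]
      omega
    · funext o
      show FF y h o + s = _
      rw [he]
      show ((FF y f + fun _ => s) ⊔ FF y g) o - s + s = _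
      ring
  have := Finset.le_card_infs_mul_card_sups S T
  rw [cS, cT] at this
  calc A.card * B.card ≤ (S ⊼ T).card * (S ⊻ T).card := this
    _ ≤ D.card * C.card := Nat.mul_le_mul hinf hsup
    _ = C.card * D.card := Nat.mul_comm _ _

end Pool.Agent.TH263.KS_LC
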